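import Mathlib

set_option autoImplicit false

open Finset

namespace Pool.Agent.Results.MP_49f571_nt.DivisorCount

/-- `T n`: the number of divisors of `n` all of whose prime factors are `≡ 1 (mod 3)`. -/
def T (n : ℕ) : ℕ := #{d ∈ n.divisors | ∀ p ∈ d.primeFactors, p % 3 = 1}

/-- the character mod 3 -/
def chi (d : ℕ) : ℤ := if d % 3 = 1 then 1 else if d % 3 = 2 then -1 else 0

lemma chi_mul (a b : ℕ) : chi (a * b) = chi a * chi b := by
  have ha : a % 3 < 3 := Nat.mod_lt _ (by norm_num)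
  have hb : b % 3 < 3 := Nat.mod_lt _ (by norm_num)
  unfold chi
  rw [Nat.mul_mod]
  interval_cases a % 3 <;> interval_cases b % 3 <;> simp

lemma chi_pow (a k : ℕ) : chi (a ^ k) = chi a ^ k := by
  induction k with
  | zero => simp [chi]
  | succ k ih => rw [pow_succ, pow_succ, chi_mul, ih]

/-- Arithmetic function `χ`. -/
def chiA : ArithmeticFunction ℤ := ⟨chi, by simp [chi]⟩

lemma chiA_mult : chiA.IsMultiplicative := by
  refine ⟨by simp [chiA, chi], ?_⟩
  intro m n _
  exact chi_mul m n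

/-- `n ↦ ∑_{d ∣ n} χ(d)` -/
def F : ArithmeticFunction ℤ := chiA * (ArithmeticFunction.zeta : ArithmeticFunction ℤ)

lemma F_mult : F.IsMultiplicative :=
  chiA_mult.mul ArithmeticFunction.isMultiplicative_zeta.natCast

lemma F_apply (n : ℕ) : F n = ∑ d ∈ n.divisors, chi d := by
  unfold F
  rw [ArithmeticFunction.coe_mul_zeta_apply]
  rfl

/-- indicator of: all prime factors are `1` mod `3` -/
def psi (d : ℕ) : ℤ := if d = 0 then 0 else if ∀ p ∈ d.primeFactors, p % 3 = 1 then 1 else 0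

def psiA : ArithmeticFunction ℤ := ⟨psi, by simp [psi]⟩

lemma psiA_mult : psiA.IsMultiplicative := by
  refine ⟨by simp [psiA, psi], ?_⟩
  intro m n h
  change psi (m * n) = psi m * psi n
  by_cases hm : m = 0
  · simp [psi, hm]
  by_cases hn : n = 0
  · simp [psi, hn]
  unfold psi
  rw [if_neg (mul_ne_zero hm hn), if_neg hm, if_neg hn, Nat.primeFactors_mul hm hn]
  by_cases h1 : ∀ p ∈ m.primeFactors, p % 3 = 1
  · by_cases h2 : ∀ p ∈ n.primeFactors, p % 3 = 1
    · rw [if_pos h1, if_pos h2, if_pos]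
      · norm_num
      · intro p hp
        rcases Finset.mem_union.1 hp with hp | hp
        · exact h1 p hp
        · exact h2 p hp
    · rw [if_neg h2, mul_zero, if_neg]
      intro hc
      exact h2 fun p hp => hc p (Finset.mem_union_right _ hp)
  · rw [if_neg h1, zero_mul, if_neg]
    intro hc
    exact h1 fun p hp => hc p (Finset.mem_union_left _ hp)

def G : ArithmeticFunction ℤ := psiA * (ArithmeticFunction.zeta : ArithmeticFunction ℤ)

lemma G_mult : G.IsMultiplicative :=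
  psiA_mult.mul ArithmeticFunction.isMultiplicative_zeta.natCast

lemma G_apply (n : ℕ) : G n = T n := by
  unfold G
  rw [ArithmeticFunction.coe_mul_zeta_apply]
  unfold T
  rw [← Finset.sum_boole]
  refine Finset.sum_congr rfl fun d hd => ?_
  have : d ≠ 0 := (Nat.pos_of_mem_divisors hd).ne'
  change psi d = _
  simp [psi, this]

lemma F_prime_pow (p k : ℕ) (hp : p.Prime) : F (p ^ k) = ∑ i ∈ range (k + 1), chi p ^ i := by
  rw [F_apply, Nat.sum_divisors_prime_pow hp]
  simp_rw [chi_pow]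

lemma G_prime_pow (p k : ℕ) (hp : p.Prime) :
    G (p ^ k) = if p % 3 = 1 then (k + 1 : ℤ) else 1 := by
  unfold G
  rw [ArithmeticFunction.coe_mul_zeta_apply, Nat.sum_divisors_prime_pow hp]
  change ∑ i ∈ range (k + 1), psi (p ^ i) = _
  have h : ∀ i, psi (p ^ i) = if p % 3 = 1 then 1 else (if i = 0 then 1 else 0) := by
    intro i
    have hne : p ^ i ≠ 0 := (pow_pos hp.pos i).ne'
    rcases Nat.eq_zero_or_pos i with hi | hi
    · subst hi; simp [psi]
    · unfold psi
      rw [if_neg hne, Nat.primeFactors_prime_pow hi.ne' hp]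
      simp [hi.ne']
  simp_rw [h]
  by_cases hc : p % 3 = 1
  · simp [hc]
  · simp [hc]

lemma F_eq_zero_or (n : ℕ) (hn : n ≠ 0) (h3 : ¬ 3 ∣ n) : F n = 0 ∨ F n = T n := by
  rw [← G_apply]
  rw [F_mult.multiplicative_factorization F hn, G_mult.multiplicative_factorization G hn]
  by_cases h : ∃ p ∈ n.primeFactors, p % 3 = 2 ∧ n.factorization p % 2 = 1
  · left
    obtain ⟨p, hp, h1, h2⟩ := h
    have hpp := Nat.prime_of_mem_primeFactors hp
    rw [Finsupp.prod, Finset.prod_eq_zero (i := p)]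
    · rwa [Nat.support_factorization]
    · rw [F_prime_pow p _ hpp]
      have hchi : chi p = -1 := by simp [chi, h1]
      rw [hchi]
      have h4 : Even (n.factorization p + 1) := by
        rw [Nat.even_iff]; omega
      rw [neg_one_geom_sum, if_pos h4]
  · right
    push Not at h
    unfold Finsupp.prod
    refine Finset.prod_congr rfl fun p hp => ?_
    rw [Nat.support_factorization] at hp
    have hpp := Nat.prime_of_mem_primeFactors hp
    have hpn := Nat.dvd_of_mem_primeFactors hp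
    change F (p ^ n.factorization p) = G (p ^ n.factorization p)
    rw [F_prime_pow p _ hpp, G_prime_pow p _ hpp]
    have hp3 : p % 3 ≠ 0 := by
      intro hc
      have : 3 ∣ p := Nat.dvd_of_mod_eq_zero hc
      exact h3 (this.trans hpn)
    have hcases : p % 3 = 1 ∨ p % 3 = 2 := by omega
    rcases hcases with hc | hc
    · have hchi : chi p = 1 := by simp [chi, hc]
      rw [hchi, if_pos hc]
      simp
    · have hchi : chi p = -1 := by simp [chi, hc]
      have h2 := h p hp hc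
      have h4 : ¬ Even (n.factorization p + 1) := by
        rw [Nat.even_iff]; omega
      rw [hchi, if_neg (by omega), neg_one_geom_sum, if_neg h4]

/-- If `d e ≡ b² (mod 9)` with `b ≡ 1 (mod 3)` then `d + e ≡ 2 b χ(d) (mod 9)`. -/
lemma key (d e b : ℕ) (hb : b % 3 = 1) (h : (d * e) % 9 = (b * b) % 9) :
    (9 : ℤ) ∣ ((d : ℤ) + e - 2 * b * chi d) := by
  have hd : d % 9 < 9 := Nat.mod_lt _ (by norm_num)
  have he : e % 9 < 9 := Nat.mod_lt _ (by norm_num)
  have hb9 : b % 9 < 9 := Nat.mod_lt _ (by norm_num)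
  have hb' : (b % 9) % 3 = 1 := by omega
  have hchi : chi d = chi (d % 9) := by
    unfold chi
    have : d % 9 % 3 = d % 3 := by omega
    rw [this]
  rw [Nat.mul_mod, Nat.mul_mod b b] at h
  have e1 : (d : ℤ) = 9 * ((d / 9 : ℕ) : ℤ) + ((d % 9 : ℕ) : ℤ) := by
    exact_mod_cast (Nat.div_add_mod d 9).symm
  have e2 : (e : ℤ) = 9 * ((e / 9 : ℕ) : ℤ) + ((e % 9 : ℕ) : ℤ) := by
    exact_mod_cast (Nat.div_add_mod e 9).symm
  have e3 : (b : ℤ) = 9 * ((b / 9 : ℕ) : ℤ) + ((b % 9 : ℕ) : ℤ) := by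
    exact_mod_cast (Nat.div_add_mod b 9).symm
  rw [hchi]
  have h9 : (9 : ℤ) ∣ (((d % 9 : ℕ) : ℤ) + ((e % 9 : ℕ) : ℤ)
      - 2 * ((b % 9 : ℕ) : ℤ) * chi (d % 9)) := by
    generalize d % 9 = d' at *
    generalize e % 9 = e' at *
    generalize b % 9 = b' at *
    clear e1 e2 e3 hchi hb
    revert h
    interval_cases b' <;> first | omega | skip
    all_goals
      interval_cases d' <;> interval_cases e' <;> intro h <;> first | (exfalso; revert h; decide) | decide
  obtain ⟨t, ht⟩ := h9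
  refine ⟨t + ((d / 9 : ℕ) : ℤ) + ((e / 9 : ℕ) : ℤ) - 2 * ((b / 9 : ℕ) : ℤ) * chi (d % 9), ?_⟩
  rw [e1, e2, e3]
  linear_combination ht

lemma sum_key (n b : ℕ) (hb : b % 3 = 1) (h : n % 9 = (b * b) % 9) :
    (9 : ℤ) ∣ (2 * (∑ d ∈ n.divisors, (d : ℤ)) - 2 * b * F n) := by
  have h1 : ∑ d ∈ n.divisors, (((d : ℤ) + ((n / d : ℕ) : ℤ)) - 2 * b * chi d)
      = 2 * (∑ d ∈ n.divisors, (d : ℤ)) - 2 * b * F n := by
    rw [Finset.sum_sub_distrib, Finset.sum_add_distrib, F_apply, ← Finset.mul_sum,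
      Nat.sum_div_divisors n (fun d => (d : ℤ))]
    ring
  rw [← h1]
  refine Finset.dvd_sum fun d hd => ?_
  refine key d (n / d) b hb ?_
  rw [Nat.mul_div_cancel' (Nat.dvd_of_mem_divisors hd)]
  exact h

/-- For a perfect number `n` not divisible by `3`, `n ≡ 7 T(n)² (mod 9)`; and a perfect number
is `≡ 1 (mod 9)` exactly when it is prime to `3` and `T(n) ≡ 2 (mod 9)`. -/
theorem result (n : ℕ) (hn : n.Perfect) :
    (¬ 3 ∣ n → n ≡ 7 * T n ^ 2 [MOD 9]) ∧ (n % 9 = 1 ↔ ¬ 3 ∣ n ∧ T n % 9 = 2) := by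
  have hpos : 0 < n := hn.2
  have hsum : ∑ i ∈ n.divisors, i = 2 * n := (Nat.perfect_iff_sum_divisors_eq_two_mul hpos).1 hn
  have hsumZ : ∑ d ∈ n.divisors, (d : ℤ) = 2 * n := by
    rw [← Nat.cast_sum, hsum]
    push_cast
    ring
  -- main congruences
  have main : ¬ 3 ∣ n → ∃ b : ℕ, b % 3 = 1 ∧ n % 9 = (b * b) % 9 ∧ (9 : ℤ) ∣ (T n - 2 * b) := by
    intro h3
    -- `n ≡ 1 (mod 3)`
    have hn1 : n % 3 = 1 := by
      by_contra hc
      have hn2 : n % 3 = 2 := by omega
      have hd : (3 : ℤ) ∣ ∑ d ∈ n.divisors, ((d : ℤ) + ((n / d : ℕ) : ℤ)) := by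
        refine Finset.dvd_sum fun d hd => ?_
        have h5 := Nat.mul_div_cancel' (Nat.dvd_of_mem_divisors hd)
        have h6 : (d * (n / d)) % 3 = 2 := by rw [h5]; exact hn2
        have h7 : (d + n / d) % 3 = 0 := by
          have hd3 : d % 3 < 3 := Nat.mod_lt _ (by norm_num)
          have he3 : (n / d) % 3 < 3 := Nat.mod_lt _ (by norm_num)
          rw [Nat.mul_mod] at h6
          rw [Nat.add_mod]
          generalize d % 3 = x at *
          generalize (n / d) % 3 = y at *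
          interval_cases x <;> interval_cases y <;> omega
        exact_mod_cast Nat.dvd_of_mod_eq_zero h7
      rw [Finset.sum_add_distrib, Nat.sum_div_divisors n (fun d => (d : ℤ)), hsumZ] at hd
      omega
    obtain ⟨b, hb, hb9⟩ : ∃ b : ℕ, b % 3 = 1 ∧ n % 9 = (b * b) % 9 := by
      have : n % 9 = 1 ∨ n % 9 = 4 ∨ n % 9 = 7 := by omega
      rcases this with h | h | h
      · exact ⟨1, by norm_num, by rw [h]⟩
      · exact ⟨7, by norm_num, by rw [h]⟩
      · exact ⟨4, by norm_num, by rw [h]⟩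
    have hk := sum_key n b hb hb9
    rw [hsumZ] at hk
    have hF3 : ¬ (3 : ℤ) ∣ F n := by
      intro hc
      have h8 : (3 : ℤ) ∣ 2 * (2 * (n : ℤ)) := by
        have h9 : (3 : ℤ) ∣ (2 * (2 * (n : ℤ)) - 2 * b * F n) := (by norm_num : (3 : ℤ) ∣ 9).trans hk
        have h10 : (3 : ℤ) ∣ 2 * b * F n := hc.mul_left _
        have := dvd_add h9 h10
        simpa using this
      omega
    have hF : F n = T n := by
      rcases F_eq_zero_or n hpos.ne' h3 with h | h
      · exact absurd (by rw [h]; exact dvd_zero _) hF3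
      · exact h
    rw [hF] at hk
    refine ⟨b, hb, hb9, ?_⟩
    -- 4 n - 2 b T ≡ 0, n ≡ b², b invertible
    have hnb : (9 : ℤ) ∣ ((n : ℤ) - b * b) := by
      have h11 : (n : ℤ) % 9 = ((b : ℤ) * b) % 9 := by exact_mod_cast hb9
      exact Int.ModEq.dvd h11.symm
    -- 2 b (T - 2 b) ≡ 0
    have h12 : (9 : ℤ) ∣ (2 * b) * ((T n : ℤ) - 2 * b) := by
      obtain ⟨s, hs⟩ := hk
      obtain ⟨t, ht⟩ := hnb
      exact ⟨-s + 4 * t, by linear_combination (-1 : ℤ) * hs + 4 * ht⟩
    have hcop : IsCoprime (9 : ℤ) (2 * b) := by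
      have h13 : Nat.Coprime 9 (2 * b) := by
        have h14 : Nat.Coprime 3 (2 * b) := by
          rw [Nat.Prime.coprime_iff_not_dvd Nat.prime_three]
          omega
        have := Nat.Coprime.pow_left 2 h14
        simpa using this
      exact_mod_cast Nat.isCoprime_iff_coprime.2 h13
    exact hcop.dvd_of_dvd_mul_left h12
  refine ⟨?_, ?_⟩
  · intro h3
    obtain ⟨b, hb, hb9, hT⟩ := main h3
    have h1 : (9 : ℤ) ∣ ((n : ℤ) - 7 * (T n : ℤ) ^ 2) := by
      have hnb : (9 : ℤ) ∣ ((n : ℤ) - b * b) := by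
        have h11 : (n : ℤ) % 9 = ((b : ℤ) * b) % 9 := by exact_mod_cast hb9
        exact Int.ModEq.dvd h11.symm
      obtain ⟨s, hs⟩ := hT
      obtain ⟨t, ht⟩ := hnb
      refine ⟨t - 3 * b * b - 7 * s * ((T n : ℤ) + 2 * b), ?_⟩
      linear_combination ht - 7 * ((T n : ℤ) + 2 * b) * hs
    have h2 : (n : ℤ) ≡ 7 * (T n : ℤ) ^ 2 [ZMOD 9] := (Int.modEq_iff_dvd.2 (by
      have := dvd_neg.2 h1
      simpa using this))
    exact_mod_cast (Int.natCast_modEq_iff (a := n) (b := 7 * T n ^ 2) (n := 9)).1 (by push_cast; exact h2)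
  · constructor
    · intro h1
      have h3 : ¬ 3 ∣ n := by omega
      refine ⟨h3, ?_⟩
      obtain ⟨b, hb, hb9, hT⟩ := main h3
      have hb1 : b % 9 = 1 := by
        rw [h1, Nat.mul_mod] at hb9
        have hb' : b % 9 < 9 := Nat.mod_lt _ (by norm_num)
        have hb'' : b % 9 % 3 = 1 := by omega
        generalize b % 9 = x at *
        interval_cases x <;> omega
      omega
    · rintro ⟨h3, h2⟩
      obtain ⟨b, hb, hb9, hT⟩ := main h3
      have hb1 : b % 9 = 1 := by omega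
      rw [hb9, Nat.mul_mod, hb1]

end Pool.Agent.Results.MP_49f571_nt.DivisorCount
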